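import Mathlib

/-!
# The Whitman number of the dual of the partition lattice (MP_437e5a, Q1)

Let `G` be a perfect group, `X` a finite set, and for an equivalence relation `π` on `X` let
`H π` be the subgroup of `G ^ X` of all functions that are constant on the classes of `π`. Then
`H (π ⊔ ρ) = H π ⊓ H ρ`, and `H (π ⊓ ρ) = H π ⊔ H ρ`, since the commutator of a function supported
on one class of `π` and a function supported on one class of `ρ` is supported on the intersection
of the two classes. The subgroups of a group embed into the equivalence relations on the group by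
`H ↦ {(x, y) | x⁻¹ y ∈ H}`, and since all `H π` contain the diagonal one may restrict to a
transversal of the diagonal. With `G = A₅` and `X` of size `n + 1` the transversal has `60 ^ n`
elements.
-/

namespace Pool.Agent.Results.MP_437e5a_co.DualPartitionLattice

/-- `L` is representable by partitions of `A`: there is a lattice embedding (an injective map that
preserves binary joins and meets) of `L` into the lattice of equivalence relations on `A`. -/
def RepresentableBy (L : Type*) [Lattice L] (A : Type*) : Prop :=
  ∃ f : L → Setoid A, Function.Injective f ∧ (∀ x y : L, f (x ⊔ y) = f x ⊔ f y) ∧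
    ∀ x y : L, f (x ⊓ y) = f x ⊓ f y

/-- The Whitman number: the least cardinality of a finite set `A` such that `L` is representable
by partitions of `A`. -/
noncomputable def whitmanNumber (L : Type*) [Lattice L] : ℕ :=
  sInf {k : ℕ | RepresentableBy L (Fin k)}

section groups

variable {G : Type*} [Group G]

theorem leftRel_mono {H K : Subgroup G} (h : H ≤ K) :
    QuotientGroup.leftRel H ≤ QuotientGroup.leftRel K := by
  intro x y hxy
  rw [QuotientGroup.leftRel_apply] at hxy ⊢
  exact h hxy

theorem leftRel_inf (H K : Subgroup G) :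
    QuotientGroup.leftRel (H ⊓ K) = QuotientGroup.leftRel H ⊓ QuotientGroup.leftRel K := by
  ext x y
  simp only [Setoid.inf_iff_and, QuotientGroup.leftRel_apply, Subgroup.mem_inf]

theorem leftRel_sup (H K : Subgroup G) :
    QuotientGroup.leftRel (H ⊔ K) = QuotientGroup.leftRel H ⊔ QuotientGroup.leftRel K := by
  apply le_antisymm
  · let S : Subgroup G :=
      { carrier := {k | ∀ g : G, (QuotientGroup.leftRel H ⊔ QuotientGroup.leftRel K) g (g * k)}
        one_mem' := fun g => by
          rw [mul_one]
        mul_mem' := fun {a b} ha hb g => by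
          have := Setoid.trans' _ (ha g) (hb (g * a))
          rwa [mul_assoc] at this
        inv_mem' := fun {a} ha g => by
          have := ha (g * a⁻¹)
          rw [inv_mul_cancel_right] at this
          exact Setoid.symm' _ this }
    have hH : H ≤ S := fun k hk g => by
      have : QuotientGroup.leftRel H g (g * k) := by
        rw [QuotientGroup.leftRel_apply, inv_mul_cancel_left]
        exact hk
      exact (le_sup_left : QuotientGroup.leftRel H ≤ _) this
    have hK : K ≤ S := fun k hk g => by
      have : QuotientGroup.leftRel K g (g * k) := by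
        rw [QuotientGroup.leftRel_apply, inv_mul_cancel_left]
        exact hk
      exact (le_sup_right : QuotientGroup.leftRel K ≤ _) this
    intro x y hxy
    rw [QuotientGroup.leftRel_apply] at hxy
    have := (sup_le hH hK) hxy x
    rwa [mul_inv_cancel_left] at this
  · exact sup_le (leftRel_mono le_sup_left) (leftRel_mono le_sup_right)

end groups

section functions

variable {X : Type*} {G : Type*} [Group G]

/-- The functions that are constant on the classes of `π`. -/
def H (G : Type*) [Group G] (π : Setoid X) : Subgroup (X → G) where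
  carrier := {g | π ≤ Setoid.ker g}
  one_mem' := fun _ _ _ => rfl
  mul_mem' := by
    intro a b ha hb x y hxy
    show a x * b x = a y * b y
    rw [show a x = a y from ha hxy, show b x = b y from hb hxy]
  inv_mem' := by
    intro a ha x y hxy
    show (a x)⁻¹ = (a y)⁻¹
    rw [show a x = a y from ha hxy]

theorem mem_H {π : Setoid X} {g : X → G} : g ∈ H G π ↔ π ≤ Setoid.ker g := Iff.rfl

theorem mem_H' {π : Setoid X} {g : X → G} : g ∈ H G π ↔ ∀ x y, π x y → g x = g y := Iff.rfl

theorem H_sup (π ρ : Setoid X) : H G (π ⊔ ρ) = H G π ⊓ H G ρ := by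
  ext g
  rw [Subgroup.mem_inf, mem_H, mem_H, mem_H, sup_le_iff]

theorem H_anti {π ρ : Setoid X} (h : π ≤ ρ) : H G ρ ≤ H G π := fun _ hg => h.trans hg

open Classical in
/-- The function with value `a` on the set `S` and `1` elsewhere. -/
noncomputable def ind (S : Set X) : G →* (X → G) where
  toFun a x := if x ∈ S then a else 1
  map_one' := by
    ext x
    simp
  map_mul' := by
    intro a b
    ext x
    by_cases h : x ∈ S <;> simp [h]

theorem ind_apply_mem {S : Set X} {x : X} (h : x ∈ S) (a : G) : ind S a x = a := by
  simp [ind, h]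

theorem ind_apply_notMem {S : Set X} {x : X} (h : x ∉ S) (a : G) : ind S a x = 1 := by
  simp [ind, h]

theorem ind_class_mem (π : Setoid X) (z : X) (a : G) : ind {x | π z x} a ∈ H G π := by
  rw [mem_H']
  intro x y hxy
  by_cases h : π z x
  · rw [ind_apply_mem (S := {x | π z x}) h, ind_apply_mem (S := {x | π z x}) (π.trans' h hxy)]
  · rw [ind_apply_notMem (S := {x | π z x}) h,
      ind_apply_notMem (S := {x | π z x}) (fun h' => h (π.trans' h' (π.symm' hxy)))]

theorem commutator_ind (S T : Set X) (a b : G) :
    ind S a * ind T b * (ind S a)⁻¹ * (ind T b)⁻¹ = ind (S ∩ T) (a * b * a⁻¹ * b⁻¹) := by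
  ext x
  simp only [Pi.mul_apply, Pi.inv_apply]
  by_cases hS : x ∈ S
  · by_cases hT : x ∈ T
    · rw [ind_apply_mem hS, ind_apply_mem hT, ind_apply_mem (S := S ∩ T) ⟨hS, hT⟩]
    · rw [ind_apply_mem hS, ind_apply_notMem hT,
        ind_apply_notMem (S := S ∩ T) (fun h => hT h.2)]
      simp
  · rw [ind_apply_notMem hS, ind_apply_notMem (S := S ∩ T) (fun h => hS h.1)]
    simp

theorem H_inf [Finite X] (hG : commutator G = ⊤) (π ρ : Setoid X) :
    H G (π ⊓ ρ) = H G π ⊔ H G ρ := by
  classical
  cases nonempty_fintype X
  apply le_antisymm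
  · -- functions supported on one class
    have h1 : ∀ (z : X) (a : G), ind {x | π z x ∧ ρ z x} a ∈ H G π ⊔ H G ρ := by
      intro z a
      have h2 : commutator G ≤ (H G π ⊔ H G ρ).comap (ind {x | π z x ∧ ρ z x}) := by
        rw [commutator_def, Subgroup.commutator_le]
        intro b _ c _
        rw [Subgroup.mem_comap]
        have h3 := commutator_ind {x | π z x} {x | ρ z x} b c
        have h4 : ({x | π z x} ∩ {x | ρ z x} : Set X) = {x | π z x ∧ ρ z x} := rfl
        rw [h4] at h3
        rw [commutatorElement_def, ← h3]
        have hb : ind {x | π z x} b ∈ H G π ⊔ H G ρ :=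
          (le_sup_left : H G π ≤ _) (ind_class_mem π z b)
        have hc : ind {x | ρ z x} c ∈ H G π ⊔ H G ρ :=
          (le_sup_right : H G ρ ≤ _) (ind_class_mem ρ z c)
        exact mul_mem (mul_mem (mul_mem hb hc) (inv_mem hb)) (inv_mem hc)
      rw [hG] at h2
      exact h2 (Subgroup.mem_top a)
    -- induction on the size of the support
    have h2 : ∀ (n : ℕ) (g : X → G), g ∈ H G (π ⊓ ρ) →
        (Finset.univ.filter (fun x => g x ≠ 1)).card ≤ n → g ∈ H G π ⊔ H G ρ := by
      intro n
      induction n with
      | zero =>
        intro g _ hn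
        have h3 : g = 1 := by
          ext x
          by_contra hx
          have h4 : x ∈ Finset.univ.filter (fun x => g x ≠ 1) := by simpa using hx
          rw [Finset.card_eq_zero.1 (Nat.le_zero.1 hn)] at h4
          exact absurd h4 (Finset.notMem_empty x)
        rw [h3]
        exact one_mem _
      | succ n ih =>
        intro g hg hn
        by_cases hall : ∀ x, g x = 1
        · have h3 : g = 1 := funext hall
          rw [h3]
          exact one_mem _
        push Not at hall
        obtain ⟨z, hz⟩ := hall
        have h3 : (ind {x | π z x ∧ ρ z x} (g z))⁻¹ * g ∈ H G π ⊔ H G ρ := by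
          apply ih
          · refine mul_mem (inv_mem ?_) hg
            have h5 := ind_class_mem (π ⊓ ρ) z (g z)
            have h6 : {x | (π ⊓ ρ) z x} = {x | π z x ∧ ρ z x} := by
              ext x
              exact Setoid.inf_iff_and
            rwa [h6] at h5
          · have h4 : (Finset.univ.filter
                (fun x => ((ind {x | π z x ∧ ρ z x} (g z))⁻¹ * g) x ≠ 1)) ⊂
                Finset.univ.filter (fun x => g x ≠ 1) := by
              rw [Finset.ssubset_iff_of_subset]
              · refine ⟨z, by simpa using hz, ?_⟩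
                have h5 : z ∈ {x | π z x ∧ ρ z x} := ⟨π.refl' z, ρ.refl' z⟩
                simp only [Finset.mem_filter, Finset.mem_univ, true_and, ne_eq, not_not,
                  Pi.mul_apply, Pi.inv_apply, ind_apply_mem h5]
                simp
              · intro x hx
                simp only [Finset.mem_filter, Finset.mem_univ, true_and, Pi.mul_apply,
                  Pi.inv_apply] at hx ⊢
                intro h1x
                apply hx
                by_cases h5 : x ∈ {x | π z x ∧ ρ z x}
                · have h6 : g z = g x := hg (Setoid.inf_iff_and.2 h5)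
                  rw [ind_apply_mem h5, h6, h1x]
                  simp
                · rw [ind_apply_notMem h5, h1x]
                  simp
            have h5 := Finset.card_lt_card h4
            omega
        have h4 : ind {x | π z x ∧ ρ z x} (g z) *
            ((ind {x | π z x ∧ ρ z x} (g z))⁻¹ * g) ∈ H G π ⊔ H G ρ := mul_mem (h1 z (g z)) h3
        rwa [mul_inv_cancel_left] at h4
    exact fun g hg => h2 _ g hg le_rfl
  · exact sup_le (H_anti inf_le_left) (H_anti inf_le_right)

theorem H_inj [Nontrivial G] {π ρ : Setoid X} (h : H G π = H G ρ) : π = ρ := by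
  have key : ∀ {π ρ : Setoid X}, H G π = H G ρ → ρ ≤ π := by
    intro π ρ h x y hxy
    obtain ⟨a, ha⟩ := exists_ne (1 : G)
    have h1 : ind {z | π x z} a ∈ H G ρ := h ▸ ind_class_mem π x a
    have h2 := mem_H'.1 h1 x y hxy
    by_contra hcon
    rw [ind_apply_mem (S := {z | π x z}) (π.refl' x),
      ind_apply_notMem (S := {z | π x z}) hcon] at h2
    exact ha h2
  exact le_antisymm (key h.symm) (key h)

end functions

section transversal

variable {G : Type*} [Group G] (n : ℕ)

/-- The embedding of the transversal of the diagonal: `a ↦ (1, a_0, …, a_{n-1})`. -/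
def emb (a : Fin n → G) : Fin (n + 1) → G := Fin.cons 1 a

/-- The retraction to the transversal. -/
def ret (g : Fin (n + 1) → G) : Fin n → G := fun i => g i.succ * (g 0)⁻¹

theorem ret_emb (a : Fin n → G) : ret n (emb n a) = a := by
  ext i
  simp [ret, emb]

theorem emb_ret (g : Fin (n + 1) → G) : emb n (ret n g) = g * fun _ => (g 0)⁻¹ := by
  ext i
  refine Fin.cases ?_ (fun i => ?_) i
  · simp [emb]
  · simp [emb, ret]

theorem rel_emb_ret (π : Setoid (Fin (n + 1))) (g : Fin (n + 1) → G) :
    QuotientGroup.leftRel (H G π) g (emb n (ret n g)) := by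
  rw [QuotientGroup.leftRel_apply, emb_ret, inv_mul_cancel_left]
  exact fun _ _ _ => rfl

/-- The equivalence relation on the transversal. -/
def F (π : Setoid (Fin (n + 1))) : Setoid (Fin n → G) :=
  Setoid.comap (emb n) (QuotientGroup.leftRel (H G π))

theorem F_iff {π : Setoid (Fin (n + 1))} {a b : Fin n → G} :
    F n π a b ↔ QuotientGroup.leftRel (H G π) (emb n a) (emb n b) := Iff.rfl

theorem F_sup (π ρ : Setoid (Fin (n + 1))) :
    F (G := G) n (π ⊔ ρ) = F n π ⊓ F n ρ := by
  ext a b
  rw [Setoid.inf_iff_and, F_iff, F_iff, F_iff, H_sup, leftRel_inf, Setoid.inf_iff_and]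

theorem F_inf (hG : commutator G = ⊤) (π ρ : Setoid (Fin (n + 1))) :
    F (G := G) n (π ⊓ ρ) = F n π ⊔ F n ρ := by
  have h1 : F (G := G) n (π ⊓ ρ) =
      Setoid.comap (emb n)
        (QuotientGroup.leftRel (H G π) ⊔ QuotientGroup.leftRel (H G ρ)) := by
    unfold F
    rw [H_inf hG, leftRel_sup]
  rw [h1]
  apply le_antisymm
  · have key : ∀ σ : Setoid (Fin (n + 1)), F (G := G) n σ ≤ F n π ⊔ F n ρ →
        QuotientGroup.leftRel (H G σ) ≤ Setoid.comap (ret n) (F n π ⊔ F n ρ) := by
      intro σ hσ g h hgh
      show (F n π ⊔ F n ρ) (ret n g) (ret n h)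
      apply hσ
      rw [F_iff]
      exact Setoid.trans' _ (Setoid.trans' _ (Setoid.symm' _ (rel_emb_ret n σ g)) hgh)
        (rel_emb_ret n σ h)
    have h2 := sup_le (key π le_sup_left) (key ρ le_sup_right)
    intro a b hab
    have h3 := h2 hab
    have h4 : (F n π ⊔ F n ρ) (ret n (emb n a)) (ret n (emb n b)) := h3
    rwa [ret_emb, ret_emb] at h4
  · apply sup_le
    · intro a b hab
      exact (le_sup_left : QuotientGroup.leftRel (H G π) ≤ _) hab
    · intro a b hab
      exact (le_sup_right : QuotientGroup.leftRel (H G ρ) ≤ _) hab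

theorem F_inj [Nontrivial G] {π ρ : Setoid (Fin (n + 1))} (h : F (G := G) n π = F n ρ) :
    π = ρ := by
  apply H_inj (G := G)
  have key : ∀ {π ρ : Setoid (Fin (n + 1))}, F (G := G) n π = F n ρ → H G π ≤ H G ρ := by
    intro π ρ h g hg
    have h1 : F n π (ret n (1 : Fin (n + 1) → G)) (ret n g) := by
      rw [F_iff]
      refine Setoid.trans' _ (Setoid.trans' _ (Setoid.symm' _ (rel_emb_ret n π 1)) ?_)
        (rel_emb_ret n π g)
      rw [QuotientGroup.leftRel_apply]
      simpa using hg
    rw [h, F_iff] at h1
    have h2 := Setoid.trans' _ (Setoid.trans' _ (rel_emb_ret n ρ 1) h1)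
      (Setoid.symm' _ (rel_emb_ret n ρ g))
    rw [QuotientGroup.leftRel_apply] at h2
    simpa using h2
  exact le_antisymm (key h) (key h.symm)

end transversal

theorem representable_of_equiv {L : Type*} [Lattice L] {A B : Type*} (e : A ≃ B)
    (h : RepresentableBy L A) : RepresentableBy L B := by
  obtain ⟨f, h1, h2, h3⟩ := h
  have inj : ∀ {r s : Setoid A}, Setoid.comap e.symm r = Setoid.comap e.symm s → r = s := by
    intro r s hrs
    ext x y
    have : Setoid.comap e.symm r (e x) (e y) ↔ Setoid.comap e.symm s (e x) (e y) := by rw [hrs]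
    simpa [Setoid.comap_rel] using this
  refine ⟨fun x => Setoid.comap e.symm (f x), fun x y hxy => h1 (inj hxy), fun x y => ?_,
    fun x y => ?_⟩
  · show Setoid.comap e.symm (f (x ⊔ y)) = _
    rw [h2]
    apply le_antisymm
    · have key : f x ⊔ f y ≤ Setoid.comap e
          (Setoid.comap e.symm (f x) ⊔ Setoid.comap e.symm (f y)) := by
        apply sup_le
        · intro a b hab
          apply (le_sup_left : Setoid.comap e.symm (f x) ≤ _)
          show f x (e.symm (e a)) (e.symm (e b))
          simpa using hab
        · intro a b hab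
          apply (le_sup_right : Setoid.comap e.symm (f y) ≤ _)
          show f y (e.symm (e a)) (e.symm (e b))
          simpa using hab
      intro a b hab
      have h4 := key hab
      have h5 : (Setoid.comap e.symm (f x) ⊔ Setoid.comap e.symm (f y)) (e (e.symm a))
        (e (e.symm b)) := h4
      simpa using h5
    · apply sup_le
      · intro a b hab
        exact (le_sup_left : f x ≤ f x ⊔ f y) hab
      · intro a b hab
        exact (le_sup_right : f y ≤ f x ⊔ f y) hab
  · show Setoid.comap e.symm (f (x ⊓ y)) = _
    rw [h3]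
    ext a b
    simp only [Setoid.comap_rel, Setoid.inf_iff_and]

/-- The dual of the partition lattice of an `(n + 1)`-element set is representable by partitions
of a set with `60 ^ n` elements. -/
theorem representable (n : ℕ) : RepresentableBy (Setoid (Fin (n + 1)))ᵒᵈ (Fin (60 ^ n)) := by
  let A := alternatingGroup (Fin 5)
  have hA : commutator A = ⊤ := by
    apply commutator_alternatingGroup_eq_top
    simp
  have hcard : Nat.card A = 60 := by
    have h := two_mul_nat_card_alternatingGroup (α := Fin 5)
    have h2 : Nat.card (Equiv.Perm (Fin 5)) = 120 := by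
      rw [Nat.card_eq_fintype_card, Fintype.card_perm, Fintype.card_fin]
      rfl
    rw [h2] at h
    show Nat.card (alternatingGroup (Fin 5)) = 60
    omega
  have hN : Nontrivial A := Finite.one_lt_card_iff_nontrivial.1 (by rw [hcard]; norm_num)
  have hcard2 : Nat.card (Fin n → A) = 60 ^ n := by
    rw [Nat.card_fun, hcard, Nat.card_eq_fintype_card, Fintype.card_fin]
  have e : (Fin n → A) ≃ Fin (60 ^ n) := Finite.equivFinOfCardEq hcard2
  apply representable_of_equiv e
  refine ⟨fun π => F n (OrderDual.ofDual π), ?_, ?_, ?_⟩
  · intro π ρ h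
    have := F_inj (G := A) n h
    exact this
  · intro π ρ
    exact F_inf n hA _ _
  · intro π ρ
    exact F_sup n _ _

/-- For all `n` the dual of the partition lattice of an `(n + 1)`-element set has a lattice
embedding into the partition lattice of a set with `60 ^ n` elements, so that its Whitman number
is at most `60 ^ n`. In particular the Whitman number of the dual of the partition lattice of a
four element set is at most `60 ^ 3 = 216000`, and hence at most `2 ^ 1000`. -/
theorem result :
    (∀ n : ℕ, RepresentableBy (Setoid (Fin (n + 1)))ᵒᵈ (Fin (60 ^ n)) ∧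
      whitmanNumber (Setoid (Fin (n + 1)))ᵒᵈ ≤ 60 ^ n) ∧
    RepresentableBy (Setoid (Fin 4))ᵒᵈ (Fin (whitmanNumber (Setoid (Fin 4))ᵒᵈ)) ∧
    whitmanNumber (Setoid (Fin 4))ᵒᵈ ≤ 216000 ∧
    whitmanNumber (Setoid (Fin 4))ᵒᵈ ≤ 2 ^ 1000 := by
  have h1 : ∀ n : ℕ, RepresentableBy (Setoid (Fin (n + 1)))ᵒᵈ (Fin (60 ^ n)) ∧
      whitmanNumber (Setoid (Fin (n + 1)))ᵒᵈ ≤ 60 ^ n :=
    fun n => ⟨representable n, Nat.sInf_le (representable n)⟩
  have h3 : whitmanNumber (Setoid (Fin 4))ᵒᵈ ≤ 216000 := by
    have := (h1 3).2
    norm_num at this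
    exact this
  refine ⟨h1, ?_, h3, h3.trans ?_⟩
  · exact Nat.sInf_mem (s := {k : ℕ | RepresentableBy (Setoid (Fin 4))ᵒᵈ (Fin k)})
      ⟨60 ^ 3, representable 3⟩
  · have h4 : (216000 : ℕ) ≤ 2 ^ 18 := by norm_num
    have h5 : ∀ k : ℕ, 18 ≤ k → (216000 : ℕ) ≤ 2 ^ k :=
      fun k hk => h4.trans (Nat.pow_le_pow_right (by norm_num) hk)
    exact h5 1000 (by norm_num)

end Pool.Agent.Results.MP_437e5a_co.DualPartitionLattice
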